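import Pool.Agent.H78.RS.Fin

/-!
MP_1337e8_nt, Q1: all but at most `C exp (-c r) N` of the `n ≤ N`, `N` large, can be written
`n = k + m` with `k, m > 0` and `2 ^ k + m` a product of at most `r` primes.
-/

namespace Pool.Agent.Results.MP_1337e8_nt.AlmostPrimes

theorem result : ∃ C c : ℝ, 0 < C ∧ 0 < c ∧ ∀ r : ℕ, ∃ N₀ : ℕ, ∀ N : ℕ, N₀ ≤ N →
    ({n : ℕ | 1 < n ∧ n ≤ N ∧ ¬ ∃ k m : ℕ, 0 < k ∧ 0 < m ∧ k + m = n ∧
      (2 ^ k + m).primeFactorsList.length ≤ r}.ncard : ℝ) ≤ C * Real.exp (-c * r) * N :=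
  Pool.Agent.H78.RS.part2E

end Pool.Agent.Results.MP_1337e8_nt.AlmostPrimes
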