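import Pool.Agent.H53.SU.Fin

/-!
A good representation of a number `n` is a pair `(k, m)` of positive integers with `k + m = n` and `2 ^ k + m` prime.
In every residue class the numbers with a good representation have positive lower density, even with `k ≤ ε log n`.
-/

namespace Pool.Agent.Results.MP_1337e8_nt.EveryResidueClass

open Filter

/-- `(k, m)` is a good representation of `n` -/
def Good (n k m : ℕ) : Prop := 0 < k ∧ 0 < m ∧ k + m = n ∧ (2 ^ k + m).Prime

open Classical in
/-- For every residue class `a` modulo `q` and every `ε > 0` there is `c > 0` such that for all large `N` at least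
`c N` of the numbers `n ≤ N`, `n ≡ a (mod q)`, have a good representation `(k, m)` with `k ≤ ε log n`. -/
theorem result (q a : ℕ) (hq : 1 ≤ q) (ε : ℝ) (hε : 0 < ε) :
    ∃ c : ℝ, 0 < c ∧ ∀ᶠ N : ℕ in atTop,
      c * N ≤ (((Finset.Icc 1 N).filter (fun n => n ≡ a [MOD q] ∧
        ∃ k m : ℕ, Good n k m ∧ (k : ℝ) ≤ ε * Real.log n)).card : ℝ) := by
  obtain ⟨c, hc, h⟩ := Pool.Agent.H53.SU.proportion q a hq ε hε
  refine ⟨c, hc, ?_⟩
  filter_upwards [h] with N hN
  refine hN.trans ?_
  norm_cast
  apply Finset.card_le_card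
  intro n hn
  rw [Finset.mem_filter] at hn ⊢
  obtain ⟨h1, h2, k, m, hk, hm, hkm, hp, hB⟩ := hn
  exact ⟨h1, h2, k, m, ⟨hk, hm, hkm, hp⟩, hB⟩

end Pool.Agent.Results.MP_1337e8_nt.EveryResidueClass
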