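import Pool.Agent.H53.SU.Many

/-!
A good representation of a number `n` is a pair `(k, m)` of positive integers with `k + m = n` and `2 ^ k + m` prime.
Every residue class contains, for every `s`, infinitely many numbers with at least `s` good representations, with
`k` bounded in terms of the modulus and `s` only.
-/

namespace Pool.Agent.Results.MP_1337e8_nt.ManyRepresentations

/-- `(k, m)` is a good representation of `n` -/
def Good (n k m : ℕ) : Prop := 0 < k ∧ 0 < m ∧ k + m = n ∧ (2 ^ k + m).Prime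

/-- For every `q ≥ 1` and `s` there is a bound `B` such that every residue class modulo `q` contains infinitely
many `n` with at least `s` good representations `(k, m)`, all with `k ≤ B`. -/
theorem result (q s : ℕ) (hq : 1 ≤ q) : ∃ B : ℕ, ∀ a n₀ : ℕ, ∃ n : ℕ, n₀ < n ∧ n ≡ a [MOD q] ∧
    s ≤ {p : ℕ × ℕ | Good n p.1 p.2 ∧ p.1 ≤ B}.ncard := by
  choose! f hf using fun a : ℕ => Pool.Agent.H53.SU.many q a s hq
  refine ⟨∑ a ∈ Finset.range q, f a, fun a n₀ => ?_⟩
  obtain ⟨n, h1, h2, h3⟩ := hf (a % q) n₀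
  refine ⟨n, h1, h2.trans (Nat.mod_modEq a q), h3.trans ?_⟩
  have hB : f (a % q) ≤ ∑ a ∈ Finset.range q, f a :=
    Finset.single_le_sum (f := f) (fun _ _ => Nat.zero_le _) (Finset.mem_range.2 (Nat.mod_lt a hq))
  rw [← Set.ncard_coe_finset]
  have hfin : {p : ℕ × ℕ | Good n p.1 p.2 ∧ p.1 ≤ ∑ a ∈ Finset.range q, f a}.Finite := by
    apply ((Finset.range (n + 1)) ×ˢ (Finset.range (n + 1))).finite_toSet.subset
    rintro ⟨k, m⟩ ⟨⟨_, _, h, _⟩, _⟩
    simp only at h
    simp only [Finset.coe_product, Set.mem_prod, Finset.coe_range, Set.mem_Iio]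
    omega
  apply Set.ncard_le_ncard_of_injOn (fun k => (k, n - k)) _ _ hfin
  · intro k hk
    rw [Finset.mem_coe, Finset.mem_filter, Finset.mem_Icc] at hk
    obtain ⟨⟨h4, h5⟩, h6, h7⟩ := hk
    refine ⟨⟨?_, ?_, ?_, ?_⟩, ?_⟩
    · show 0 < k
      omega
    · show 0 < n - k
      omega
    · show k + (n - k) = n
      omega
    · show (2 ^ k + (n - k)).Prime
      exact h7
    · show k ≤ _
      omega
  · intro k _ k' _ h
    simp only [Prod.mk.injEq] at h
    exact h.1

end Pool.Agent.Results.MP_1337e8_nt.ManyRepresentations
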