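import Pool.Agent.H78.RS.Rgh

/-!
MP_1337e8_nt, Q1: for every large `n` the numbers `2 ^ k + m`, `k + m = n`, `0 < k < X ≤ n`, contain
the expected number of integers without prime factors up to a power of `X`.
-/

namespace Pool.Agent.Results.MP_1337e8_nt.RoughValues

theorem result (ε : ℝ) (hε : 0 < ε) : ∃ δ : ℝ, 0 < δ ∧ ∃ X₀ : ℕ, ∀ X n : ℕ, X₀ ≤ X → X ≤ n → ∀ y : ℕ,
    (y : ℝ) ≤ (X : ℝ) ^ δ →
      |({k : ℕ | 0 < k ∧ k < X ∧ ∀ p : ℕ, p.Prime → p ≤ y → ¬ p ∣ 2 ^ k + (n - k)}.ncard : ℝ) -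
        X * ∏ p ∈ (Finset.range (y + 1)).filter Nat.Prime, (1 - 1 / (p : ℝ))| ≤
      ε * (X * ∏ p ∈ (Finset.range (y + 1)).filter Nat.Prime, (1 - 1 / (p : ℝ))) :=
  Pool.Agent.H78.RS.part3 ε hε

end Pool.Agent.Results.MP_1337e8_nt.RoughValues
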